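import Pool.Agent.W42.RG.Defs

set_option autoImplicit false
set_option linter.unusedSectionVars false
set_option linter.unusedVariables false

namespace Pool.Agent.W481.LX

open Finset Filter Topology MeasureTheory Pool.Agent.W42.RN Pool.Agent.W42.RL Pool.Agent.W42.RG

section
variable {X : Type} [MeasurableSpace X]
variable {𝔤 : Type} [LieRing 𝔤] [LieAlgebra ℝ 𝔤] [FiniteDimensional ℝ 𝔤] [TopologicalSpace 𝔤]
  [IsTopologicalAddGroup 𝔤] [ContinuousSMul ℝ 𝔤] [T2Space 𝔤]
variable {μ : Measure X} [IsProbabilityMeasure μ] {E : 𝔤 → X → X}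

theorem it_conj {S : X → X} (hS : MeasurePreserving S μ μ) (B : 𝔤 → 𝔤)
    (h : ∀ Y, Same μ (S ∘ E Y) (E (B Y) ∘ S)) (n : ℕ) (Y : 𝔤) :
    Same μ (S^[n] ∘ E Y) (E (B^[n] Y) ∘ S^[n]) := by
  induction n with
  | zero =>
    intro A hA
    exact EventuallyEq.refl _ _
  | succ n ih =>
    have g1 : Same μ (S^[n + 1] ∘ E Y) (S ∘ (E (B^[n] Y) ∘ S^[n])) := by
      rw [Function.iterate_succ']
      exact ih.left hS.measurable
    have g2 : Same μ ((S ∘ E (B^[n] Y)) ∘ S^[n])
        ((E (B (B^[n] Y)) ∘ S) ∘ S^[n]) := (h _).right (hS.iterate n)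
    have g3 := g1.trans g2
    rw [Function.iterate_succ'] at g3 ⊢
    rw [Function.iterate_succ']
    exact g3

theorem symm_conj' {T : X ≃ᵐ X} (hT : MeasurePreserving T μ μ) (A : 𝔤 ≃ₗ[ℝ] 𝔤)
    (h : ∀ Y, Same μ (T ∘ E Y) (E (A Y) ∘ T)) (Y : 𝔤) :
    Same μ (T.symm ∘ E Y) (E (A.symm Y) ∘ T.symm) := by
  have hT' : MeasurePreserving T.symm μ μ := hT.symm T
  have g1 := ((h (A.symm Y)).left T.symm.measurable).right hT'
  have e1 : (T.symm ∘ (T ∘ E (A.symm Y))) ∘ T.symm = E (A.symm Y) ∘ T.symm := by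
    funext p
    simp
  have e2 : (T.symm ∘ (E (A (A.symm Y)) ∘ T)) ∘ T.symm = T.symm ∘ E Y := by
    funext p
    simp
  rw [e1, e2] at g1
  exact g1.symm

theorem ctr_lim {f : 𝔤 → 𝔤} {Y : 𝔤} (h : Y ∈ ctr f) : Tendsto (fun n : ℕ => f^[n] Y) atTop (𝓝 0) := by
  obtain ⟨r, hr, h⟩ := h
  have h1 : Tendsto (fun n : ℕ => (r⁻¹) ^ n) atTop (𝓝 0) :=
    tendsto_pow_atTop_nhds_zero_of_lt_one (by positivity) (inv_lt_one_of_one_lt₀ hr)
  have h2 := h1.smul h
  rw [smul_zero] at h2
  refine h2.congr fun n => ?_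
  rw [smul_smul, ← mul_pow, inv_mul_cancel₀ (by positivity), one_pow, one_smul]

theorem ctr_iter (A : 𝔤 ≃ₗ[ℝ] 𝔤) {Y : 𝔤} (h : Y ∈ ctr A.symm) (k : ℕ) : A^[k] Y ∈ ctr A.symm := by
  obtain ⟨r, hr, h⟩ := h
  refine ⟨r, hr, ?_⟩
  rw [← tendsto_add_atTop_iff_nat k]
  have h1 := h.const_smul (r ^ k)
  rw [smul_zero] at h1
  refine h1.congr fun n => ?_
  have e : A.symm^[n + k] (A^[k] Y) = A.symm^[n] Y := by
    rw [Function.iterate_add_apply]
    congr 1
    exact Function.LeftInverse.iterate A.symm_apply_apply k Y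
  rw [e, smul_smul, pow_add]
  congr 1
  ring

theorem t_COB : S_COB := by
  intro X _ 𝔤 _ _ _ _ _ _ _ μ _ E hE T hT A hA N U hU j f hf hinv Y hY h hh
  have hP := act_pw (μ := μ) hT
  have hfar : ∀ M : ℕ, ∀ᶠ n in (U : Filter (Fin N → ℤ)), ∀ i i', i ≠ i' → (M : ℤ) ≤ |n i - n i'| :=
    fun M => hU ⟨M, fun n hn => hn⟩
  have hhY : Bd fun p => h (E Y p) := hh.comp (hE.mp Y).measurable
  set F : Fin N → X → ℂ := Function.update f j h with hF
  set F' : Fin N → X → ℂ := Function.update f j (fun p => h (E Y p)) with hF'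
  have hFB : ∀ i, Bd (F i) := Bd.update hf j hh
  have hFB' : ∀ i, Bd (F' i) := Bd.update hf j hhY
  obtain ⟨K, hK1, hK⟩ := Bd.common hFB
  obtain ⟨K', hK1', hK'⟩ := Bd.common hFB'
  -- the errors
  have herr : ∀ i, Tendsto (fun n : Fin N → ℤ => ∫ q, ‖F i (pw T (n i - n j) (E Y q)) -
      F' i (pw T (n i - n j) q)‖ ∂μ) U (𝓝 0) := by
    intro i
    by_cases hij : i = j
    · subst hij
      have : (fun n : Fin N → ℤ => ∫ q, ‖F i (pw T (n i - n i) (E Y q)) -
          F' i (pw T (n i - n i) q)‖ ∂μ) = fun _ => 0 := by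
        funext n
        rw [sub_self, hP.zero]
        simp [hF, hF']
      rw [this]
      exact tendsto_const_nhds
    · have hFi : F i = f i := by rw [hF, Function.update_of_ne hij]
      have hFi' : F' i = f i := by rw [hF', Function.update_of_ne hij]
      rw [hFi, hFi']
      by_cases hlt : ∀ᶠ n in (U : Filter (Fin N → ℤ)), n j < n i
      · refine tendsto_const_nhds.congr' ?_
        filter_upwards [hlt] with n hn
        obtain ⟨k, hk⟩ : ∃ k : ℕ, n i - n j = k := ⟨(n i - n j).toNat, by omega⟩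
        rw [hk, pw_nat]
        symm
        have g1 := (it_conj hT (fun Z => A Z) hA k Y).fn (hf i).meas
        have g2 := hinv i hlt _ (ctr_iter A hY k)
        have g3 := (hT.iterate k).quasiMeasurePreserving.ae_eq_comp g2
        have : (fun q => ‖f i (T^[k] (E Y q)) - f i (T^[k] q)‖) =ᵐ[μ] fun _ => 0 := by
          filter_upwards [g1, g3] with q k1 k2
          simp only [Function.comp_apply] at k1 k2
          rw [k1, k2, sub_self, norm_zero]
        rw [integral_congr_ae this, integral_zero]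
      · have hge : ∀ᶠ n in (U : Filter (Fin N → ℤ)), ¬ n j < n i := Ultrafilter.eventually_not.mpr hlt
        have hk : Tendsto (fun n : Fin N → ℤ => (n j - n i).toNat) U atTop := by
          rw [tendsto_atTop]
          intro b
          filter_upwards [hfar b, hge] with n h1 h2
          have h3 := h1 i j hij
          rw [abs_of_nonpos (by omega)] at h3
          omega
        have h1 : Tendsto (fun n : Fin N → ℤ => A.symm^[(n j - n i).toNat] Y) U (𝓝 0) :=
          (ctr_lim hY).comp hk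
        have h2 := (hE.cont (f i) (hf i) 0).comp h1
        refine h2.congr' ?_
        filter_upwards [hge] with n hn
        obtain ⟨k, hk⟩ : ∃ k : ℕ, n j - n i = k := ⟨(n j - n i).toNat, by omega⟩
        have hk' : n i - n j = -(k : ℤ) := by omega
        rw [hk', pw_neg]
        simp only [Function.comp_apply]
        rw [hk, Int.toNat_natCast]
        have hT' : MeasurePreserving T.symm μ μ := hT.symm T
        have g1 := (it_conj hT' (fun Z => A.symm Z) (symm_conj' hT A hA) k Y).fn (hf i).meas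
        have g2 := hE.zero.fn (hf i).meas
        have e1 : ∫ p, ‖f i (E (A.symm^[k] Y) p) - f i (E 0 p)‖ ∂μ =
            ∫ p, ‖f i (E (A.symm^[k] Y) p) - f i p‖ ∂μ := by
          apply integral_congr_ae
          filter_upwards [g2] with p hp
          rw [hp]
          rfl
        have e2 : ∫ p, ‖f i (E (A.symm^[k] Y) (T.symm^[k] p)) - f i (T.symm^[k] p)‖ ∂μ =
            ∫ p, ‖f i (E (A.symm^[k] Y) p) - f i p‖ ∂μ :=
          comp_int (hT'.iterate k) (g := fun p => ‖f i (E (A.symm^[k] Y) p) - f i p‖)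
            (((hf i).comp (hE.mp _).measurable).meas.sub (hf i).meas).norm
        rw [e1, ← e2]
        apply integral_congr_ae
        filter_upwards [g1] with p hp
        simp only [Function.comp_apply] at hp
        rw [hp]
  have hsum : Tendsto (fun n : Fin N → ℤ => (max K K') ^ N * ∑ i, ∫ q, ‖F i (pw T (n i - n j) (E Y q)) -
      F' i (pw T (n i - n j) q)‖ ∂μ) U (𝓝 0) := by
    have := (tendsto_finsetSum univ fun i _ => herr i).const_mul ((max K K') ^ N)
    simpa using this
  have hdiff : Tendsto (fun n : Fin N → ℤ => C μ (pw T) n F - C μ (pw T) n F') U (𝓝 0) := by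
    refine squeeze_zero_norm (fun n => ?_) hsum
    rw [C_shift hP hFB n (n j), C_shift hP hFB' n (n j)]
    have h1 : ∫ q, ∏ i, F i (pw T (n i - n j) q) ∂μ = ∫ q, ∏ i, F i (pw T (n i - n j) (E Y q)) ∂μ :=
      (comp_int (hE.mp Y) (g := fun q => ∏ i, F i (pw T (n i - n j) q)) (Bd.tuple hP hFB _ _).meas).symm
    have b1 : Bd fun q => ∏ i, F i (pw T (n i - n j) (E Y q)) :=
      (Bd.tuple hP hFB (fun i => n i - n j) univ).comp (hE.mp Y).measurable
    have b2 : Bd fun q => ∏ i, F' i (pw T (n i - n j) q) := Bd.tuple hP hFB' _ _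
    have hi : ∀ i, Integrable (fun q => ‖F i (pw T (n i - n j) (E Y q)) - F' i (pw T (n i - n j) q)‖) μ := fun i =>
      ((((hFB i).comp (hP.mp _).measurable).comp (hE.mp _).measurable).int.sub
        ((hFB' i).comp (hP.mp (n i - n j)).measurable).int).norm
    rw [h1, ← integral_sub b1.int b2.int, ← integral_finsetSum _ fun i _ => hi i, ← integral_const_mul]
    refine (norm_integral_le_integral_norm _).trans ?_
    apply integral_mono (b1.int.sub b2.int).norm ((integrable_finsetSum _ fun i _ => hi i).const_mul _)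
    intro q
    have h2 := prod_sub_le univ (fun i => F i (pw T (n i - n j) (E Y q)))
      (fun i => F' i (pw T (n i - n j) q)) (max K K') (hK1.trans (le_max_left _ _))
      (fun i => (hK i _).trans (le_max_left _ _)) (fun i => (hK' i _).trans (le_max_right _ _))
    rw [card_univ, Fintype.card_fin] at h2
    exact h2
  apply L_eq hFB'
  have := (tendsto_L (μ := μ) (P := pw T) (U := U) hFB).sub hdiff
  simpa using this

end

end Pool.Agent.W481.LX

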